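import Pool.Agent.Q8.GC.Main
import Pool.Agent.TH130.CI.Cz

/-!
The theorem of Gordan and Noether for Milnor algebras of smooth hypersurfaces: all maps
`ℓ ^ k : M(f)_i → M(f)_{i+k}` which start in degree at most one, or end in degree at least `σ - 1`
(`σ` the socle degree), have maximal rank.
-/

open MvPolynomial

namespace Pool.Agent.Results.MP_2e2d1a_ag.FromDegreeOne

/-- Let `f ∈ ℂ[x_0, …, x_n]` be a form of degree `d ≥ 3` with `V(f)` smooth (the partial derivatives
have no common zero except the origin), and `M(f)` its Milnor algebra, of socle degree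
`σ = (n + 1) (d - 2)`.  Then there is a linear form `ℓ` such that all maps
`ℓ ^ k : M(f)_i → M(f)_{i+k}` with `i ≤ 1` or `i + k ≥ σ - 1` are injective or surjective. -/
theorem result (n d : ℕ) (f : MvPolynomial (Fin (n + 1)) ℂ) (hd : 3 ≤ d)
    (hf : f.IsHomogeneous d)
    (hsm : ∀ x : Fin (n + 1) → ℂ, (∀ i, eval x (pderiv i f) = 0) → x = 0) :
    ∃ ℓ ∈ homogeneousSubmodule (Fin (n + 1)) ℂ 1, ∀ i k : ℕ,
      (i ≤ 1 ∨ (n + 1) * (d - 2) ≤ i + k + 1) →
        (∀ g ∈ homogeneousSubmodule (Fin (n + 1)) ℂ i,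
          ℓ ^ k * g ∈ Ideal.span (Set.range (fun i : Fin (n + 1) => pderiv i f)) →
          g ∈ Ideal.span (Set.range (fun i : Fin (n + 1) => pderiv i f))) ∨
        (∀ h ∈ homogeneousSubmodule (Fin (n + 1)) ℂ (i + k),
          ∃ g ∈ homogeneousSubmodule (Fin (n + 1)) ℂ i,
            h - ℓ ^ k * g ∈ Ideal.span (Set.range (fun i : Fin (n + 1) => pderiv i f))) := by
  have hp : ∀ i, (pderiv i f).IsHomogeneous (d - 1) := fun i => hf.pderiv
  have hreg := TH130CI.reg_of_common_zero (fun i : Fin (n + 1) => pderiv i f) (fun _ => d - 1)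
    (fun _ => by omega) hp hsm
  obtain ⟨q, hq, hinj⟩ := Pool.Agent.Q8.GC.core' (a := fun i : Fin (n + 1) => pderiv i f)
    (e := fun _ => d - 1) hp (fun _ => by omega) hreg (fun _ _ _ => le_rfl) (by
      intro i
      rw [Finset.sum_const, Finset.card_univ, Fintype.card_fin, smul_eq_mul]
      exact Nat.mul_le_mul_right _ (Nat.sub_le _ _))
  obtain ⟨φ, hφ, hI⟩ := TH130CI.ci_gor (f := fun i : Fin (n + 1) => pderiv i f)
    (d := fun _ => d - 1) hp (fun _ => by omega) hreg
  have hs : ∑ _i : Fin (n + 1), (d - 1 - 1) = (n + 1) * (d - 2) := by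
    rw [Finset.sum_const, Finset.card_univ, Fintype.card_fin, smul_eq_mul,
      show d - 1 - 1 = d - 2 by omega]
  refine ⟨_, TH130CI.lin_homog q, fun i k hik => ?_⟩
  refine Pool.Agent.Q8.GC.maps hφ hI hq hinj i k ?_
  rw [hs]
  exact hik

end Pool.Agent.Results.MP_2e2d1a_ag.FromDegreeOne
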